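import Pool.Agent.H24.RCN.Targets
import Pool.Agent.H25.NW.Fin

set_option autoImplicit false

open NumberField Pool.Agent.H24.RCN

namespace Pool.Agent.H69.RCN

theorem pf_DAT : T_DAT := by
  intro r e d p k κ hr he hp hd4 hk hodd hkr h hκ hκk hκd1
  have S := Pool.Agent.H26.NL.sol_of_eq (by omega) hp hr he hk h
  have hd : d.Prime := Pool.Agent.H26.NL.d_prime S.hq (by omega) hp S.eq
  have hdf : Fact d.Prime := ⟨hd⟩
  have hd5 : 5 ≤ d := by
    rcases Nat.eq_or_lt_of_le hd4 with h1 | h1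
    · rw [← h1] at hd
      exact absurd hd (by norm_num)
    · exact h1
  have hκ2 : κ ≠ 2 := by
    intro h2
    rw [h2] at hκk
    rcases hodd with ⟨m, hm⟩
    omega
  have hκr : κ ∣ r - 1 := hκk.trans hkr
  have hnd : ¬ d ∣ r - 1 := S.not_dvd_r hr
  have hκd : κ ≠ d := by
    intro h2
    rw [h2] at hκr
    exact hnd hκr
  have hκq : κ ^ 2 ∣ r ^ e - 1 := by
    have h1 := Pool.Agent.H25.NW.wieferich hr he hp hd4 hk hodd hkr h hκ (le_refl 1)
      (by rw [pow_one]; exact hκk)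
    rcases h1.2 with h2 | h2
    · exact h2
    · exact absurd ((dvd_pow_self κ (by norm_num)).trans h2.1) hκd1
  have hr1 : r ≡ 1 [MOD κ] := ((Nat.modEq_iff_dvd' hr.one_lt.le).mpr hκr).symm
  have hq1 : r ^ e ≡ 1 [MOD κ] := by simpa using hr1.pow e
  have hpκ : p ≠ κ := by
    intro h2
    have h5 : ∑ i ∈ Finset.range d, (r ^ e) ^ i ≡ ∑ i ∈ Finset.range d, 1 [MOD κ] := by
      rw [← ZMod.natCast_eq_natCast_iff]
      push_cast
      refine Finset.sum_congr rfl fun i _ => ?_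
      have h6 : ((r ^ e : ℕ) : ZMod κ) = ((1 : ℕ) : ZMod κ) :=
        (ZMod.natCast_eq_natCast_iff _ _ _).mpr hq1
      push_cast at h6
      rw [h6, one_pow]
    rw [S.eq] at h5
    simp only [Finset.sum_const, Finset.card_range, smul_eq_mul, mul_one] at h5
    have h6 : κ ∣ p ^ k := by
      rw [← h2]
      exact dvd_pow_self p (by omega)
    have h7 : κ ∣ d :=
      Nat.modEq_zero_iff_dvd.mp (h5.symm.trans (Nat.modEq_zero_iff_dvd.mpr h6))
    exact hκd ((Nat.prime_dvd_prime_iff_eq hκ hd).mp h7)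
  have hrd : r ≠ d := by
    intro h2
    rw [h2] at hκr
    exact hκd1 hκr
  exact ⟨hr, he, hp, hd, hd5, hκ, hκ2, hκk, by omega, hκr, hκq, S.eq, hκd, hpκ, S.p_ne_d, hrd,
    hnd⟩

end Pool.Agent.H69.RCN
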