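import Pool.Agent.H24.RCN.Targets

set_option autoImplicit false

open NumberField Pool.Agent.H24.RCN

namespace Pool.Agent.H69.RCN

theorem cop_lt (h : T_PRD) (R : Type) [CommRing R] [IsDomain R] (r e d p k κ : ℕ) (ζ : R)
    (D : Dat r e d p k κ) (hζ : IsPrimitiveRoot ζ d) (i j : ℕ) (hi : 1 ≤ i) (hij : i < j)
    (hj : j < d) :
    IsCoprime (1 - ζ ^ i * ((r ^ e : ℕ) : R)) (1 - ζ ^ j * ((r ^ e : ℕ) : R)) := by
  obtain ⟨q, hq⟩ : ∃ q, q = r ^ e := ⟨_, rfl⟩
  rw [← hq]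
  have h1 : (1 - ζ ^ (j - i)) ∣ (d : R) := by
    have h2 := h R d 1 ζ D.hd hζ
    simp only [Nat.cast_one, mul_one, one_pow, Finset.sum_const, Finset.card_range,
      nsmul_eq_mul] at h2
    rw [← h2]
    have h3 := Finset.dvd_prod_of_mem (fun i => 1 - ζ ^ (i + 1))
      (show j - i - 1 ∈ Finset.range (d - 1) from Finset.mem_range.2 (by omega))
    have h4 : j - i - 1 + 1 = j - i := by omega
    simpa only [h4] using h3
  have h5 : (1 - ζ ^ i * (q : R)) ∣ ((p ^ k : ℕ) : R) := by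
    have h2 := h R d q ζ D.hd hζ
    have h6 : ((p ^ k : ℕ) : R) = ∑ i ∈ Finset.range d, (q : R) ^ i := by
      rw [← D.eq, ← hq]
      push_cast
      rfl
    rw [h6, ← h2]
    have h3 := Finset.dvd_prod_of_mem (fun i => 1 - ζ ^ (i + 1) * (q : R))
      (show i - 1 ∈ Finset.range (d - 1) from Finset.mem_range.2 (by omega))
    have h4 : i - 1 + 1 = i := by omega
    simpa only [h4] using h3
  obtain ⟨c, hc⟩ := h1
  obtain ⟨c', hc'⟩ := h5
  have hcop : Nat.Coprime d (p ^ k) := by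
    apply Nat.Coprime.pow_right
    exact (Nat.coprime_primes D.hd D.hp).2 (Ne.symm D.hpd)
  obtain ⟨u, v, huv⟩ := hcop.isCoprime
  have huv' : (u : R) * (d : R) + (v : R) * ((p ^ k : ℕ) : R) = 1 := by
    have := congrArg (Int.cast : ℤ → R) huv
    push_cast at this ⊢
    exact this
  have hz : ζ ^ i * ζ ^ (d - i) = 1 := by
    rw [← pow_add, Nat.add_sub_cancel' (by omega), hζ.pow_eq_one]
  have hzj : ζ ^ j = ζ ^ i * ζ ^ (j - i) := by
    rw [← pow_add, Nat.add_sub_cancel' hij.le]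
  rw [hc, hc'] at huv'
  refine ⟨(v : R) * c' - (u : R) * ζ ^ (d - i) * c * ζ ^ j, (u : R) * ζ ^ (d - i) * c * ζ ^ i, ?_⟩
  rw [hzj]
  linear_combination huv' + (u : R) * c * (1 - ζ ^ (j - i)) * hz

theorem pf_COP (h : T_PRD) : T_COP := by
  intro R _ _ r e d p k κ ζ D hζ i j hi hid hj hjd hij
  rcases Nat.lt_or_gt_of_ne hij with h1 | h1
  · exact cop_lt h R r e d p k κ ζ D hζ i j hi h1 hjd
  · exact (cop_lt h R r e d p k κ ζ D hζ j i hj h1 hid).symm

end Pool.Agent.H69.RCN
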